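import Mathlib
import Pool.Agent.H23.RG.Stm2

set_option autoImplicit false
open Classical Filter

namespace Pool.Agent.H23.RG

theorem h47_mu_nonneg {X : Type} [Fintype X] (p : ℝ) (h0 : 0 ≤ p) (h1 : p ≤ 1)
    (Q : Finset X → Prop) : 0 ≤ mu p Q := by
  unfold mu
  refine Finset.sum_nonneg fun A _ => ?_
  split_ifs
  · unfold wt
    have : 0 ≤ 1 - p := by linarith
    positivity
  · exact le_rfl

/-- the pairs between `T` and `S` -/
noncomputable def h47_btw {n : ℕ} (T S : Finset (Fin n)) : Finset (E n) :=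
  Finset.univ.filter (fun z => (z.1.1 ∈ T ∧ z.1.2 ∈ S) ∨ (z.1.1 ∈ S ∧ z.1.2 ∈ T))

theorem h47_btw_card {n : ℕ} (T S : Finset (Fin n)) (hd : Disjoint T S) :
    T.card * S.card ≤ (h47_btw T S).card := by
  rw [← Finset.card_product]
  refine (Finset.card_le_card (t := (h47_btw T S).image
    (fun z : E n => if z.1.1 ∈ T then z.1 else z.1.swap)) ?_).trans Finset.card_image_le
  rintro ⟨u, v⟩ huv
  rw [Finset.mem_product] at huv
  obtain ⟨hu, hv⟩ := huv
  simp only at hu hv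
  have hvT : v ∉ T := fun h => Finset.disjoint_left.1 hd h hv
  have hne : u ≠ v := fun h => hvT (h ▸ hu)
  rw [Finset.mem_image]
  rcases lt_or_gt_of_ne hne with h | h
  · refine ⟨⟨(u, v), h⟩, ?_, ?_⟩
    · simp [h47_btw, hu, hv]
    · simp [hu]
  · refine ⟨⟨(v, u), h⟩, ?_, ?_⟩
    · simp [h47_btw, hu, hv]
    · simp [hvT]

theorem h47_pair (hCH2 : S_CH2) (hMON : S_MON) {n : ℕ} (T S : Finset (Fin n)) (hd : Disjoint T S)
    (p : ℝ) (h0 : 0 ≤ p) (h1 : p ≤ 1) :
    mu p (fun B : Finset (E n) => ∀ u ∈ T, ∀ v ∈ S, ¬ (gr B).Adj u v) ≤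
      (1 - p / 2) ^ (T.card * S.card) := by
  have hle := hCH2 (E n) p ∅ (h47_btw T S) 0 h0 h1 (by simp)
  have hm := hMON (E n) p h0 h1 (fun B : Finset (E n) => ∀ u ∈ T, ∀ v ∈ S, ¬ (gr B).Adj u v)
    (fun B => ∅ ⊆ B ∧ (B ∩ h47_btw T S).card ≤ 0) (by
      intro B hB
      refine ⟨Finset.empty_subset _, ?_⟩
      rw [Nat.le_zero, Finset.card_eq_zero, Finset.eq_empty_iff_forall_notMem]
      rintro z hz
      rw [Finset.mem_inter] at hz
      obtain ⟨hzB, hzY⟩ := hz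
      rw [h47_btw, Finset.mem_filter] at hzY
      rcases hzY.2 with ⟨h2, h3⟩ | ⟨h2, h3⟩
      · exact hB _ h2 _ h3 (Or.inl ⟨z.2, hzB⟩)
      · exact hB _ h3 _ h2 (Or.inr ⟨z.2, hzB⟩))
  have hle' : mu p (fun B : Finset (E n) => ∅ ⊆ B ∧ (B ∩ h47_btw T S).card ≤ 0) ≤
      p ^ (∅ : Finset (E n)).card * 2 ^ 0 * (1 - p / 2) ^ (h47_btw T S).card := by
    convert hle
  refine (hm.trans hle').trans ?_
  simp only [Finset.card_empty, pow_zero, one_mul]
  exact pow_le_pow_of_le_one (by linarith) (by linarith) (h47_btw_card T S hd)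

theorem djc_part (hUNI : S_UNI) (hMON : S_MON) (hCH2 : S_CH2) : S_DJC := by
  intro γ hγ
  refine ⟨4 / γ ^ 2, by positivity, fun c hc => ?_⟩
  have hc0 : 0 < c := lt_of_lt_of_le (by positivity) hc
  have hcγ : 4 ≤ c * γ ^ 2 := by
    rwa [div_le_iff₀ (by positivity)] at hc
  have he : Real.exp (-2) < 1 / 4 := by
    rw [Real.exp_neg, inv_lt_comm₀ (Real.exp_pos _) (by norm_num)]
    have h1 : Real.exp 2 = Real.exp 1 * Real.exp 1 := by rw [← Real.exp_add]; norm_num
    have h2 : (2.7 : ℝ) < Real.exp 1 := by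
      have := Real.exp_one_gt_d9; linarith
    rw [h1]; nlinarith
  have hlim : Tendsto (fun n : ℕ => (4 * Real.exp (-2)) ^ n) atTop (nhds 0) :=
    tendsto_pow_atTop_nhds_zero_of_lt_one (by positivity) (by linarith)
  refine squeeze_zero' ?_ ?_ hlim
  · filter_upwards [eventually_ge_atTop ⌈c⌉₊] with n hn
    have hn1 : c ≤ n := (Nat.le_ceil c).trans (by exact_mod_cast hn)
    have hn0 : (0 : ℝ) < n := lt_of_lt_of_le hc0 hn1
    exact h47_mu_nonneg _ (by positivity) (by rw [div_le_one hn0]; exact hn1) _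
  · filter_upwards [eventually_ge_atTop ⌈c⌉₊] with n hn
    have hn1 : c ≤ n := (Nat.le_ceil c).trans (by exact_mod_cast hn)
    have hn0 : (0 : ℝ) < n := lt_of_lt_of_le hc0 hn1
    have hp0 : 0 ≤ c / (n : ℝ) := by positivity
    have hp1 : c / (n : ℝ) ≤ 1 := by rw [div_le_one hn0]; exact hn1
    set J := (Finset.univ : Finset (Finset (Fin n) × Finset (Fin n))).filter
      (fun x => Disjoint x.1 x.2 ∧ γ * (n : ℝ) ≤ (x.1.card : ℝ) ∧
        γ * (n : ℝ) ≤ (x.2.card : ℝ)) with hJ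
    refine (hMON (E n) _ hp0 hp1 _ (fun B => ∃ x ∈ J,
      ∀ u ∈ x.1, ∀ v ∈ x.2, ¬ (gr B).Adj u v) ?_).trans ?_
    · rintro B ⟨T, S, h1, h2, h3, h4⟩
      exact ⟨(T, S), by rw [hJ, Finset.mem_filter]; exact ⟨Finset.mem_univ _, h1, h2, h3⟩, h4⟩
    · refine (hUNI (E n) _ hp0 hp1 _ J _).trans ?_
      have hterm : ∀ x ∈ J, mu (c / (n : ℝ)) (fun B : Finset (E n) =>
          ∀ u ∈ x.1, ∀ v ∈ x.2, ¬ (gr B).Adj u v) ≤ Real.exp (-2) ^ n := by
        intro x hx
        rw [hJ, Finset.mem_filter] at hx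
        obtain ⟨-, h1, h2, h3⟩ := hx
        refine (h47_pair hCH2 hMON x.1 x.2 h1 _ hp0 hp1).trans ?_
        have h5 : 1 - c / (n : ℝ) / 2 ≤ Real.exp (-(c / (n : ℝ) / 2)) := by
          have := Real.add_one_le_exp (-(c / (n : ℝ) / 2)); linarith
        have h6 : 0 ≤ 1 - c / (n : ℝ) / 2 := by linarith
        refine (pow_le_pow_left₀ h6 h5 _).trans ?_
        rw [← Real.exp_nat_mul, ← Real.exp_nat_mul, Real.exp_le_exp]
        push_cast
        have h7 : γ * n * (γ * n) ≤ (x.1.card : ℝ) * x.2.card :=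
          mul_le_mul h2 h3 (by positivity) (by positivity)
        have h8 : c / (n : ℝ) / 2 * (γ * n * (γ * n)) = c * γ ^ 2 * n / 2 := by
          field_simp
        have h9 : c / (n : ℝ) / 2 * (γ * n * (γ * n)) ≤
            c / (n : ℝ) / 2 * ((x.1.card : ℝ) * x.2.card) :=
          mul_le_mul_of_nonneg_left h7 (by positivity)
        have h10 : 4 * (n : ℝ) ≤ c * γ ^ 2 * n := mul_le_mul_of_nonneg_right hcγ hn0.le
        nlinarith
      refine (Finset.sum_le_card_nsmul _ _ _ hterm).trans ?_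
      rw [nsmul_eq_mul, mul_pow]
      refine mul_le_mul_of_nonneg_right ?_ (by positivity)
      have h11 : J.card ≤ 4 ^ n := by
        refine (Finset.card_le_univ _).trans ?_
        rw [Fintype.card_prod, Fintype.card_finset, Fintype.card_fin, ← mul_pow]
        norm_num
      exact_mod_cast h11

end Pool.Agent.H23.RG
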